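import Mathlib
import Pool.Agent.W_MP_6dfbfb_co.Defs
import Pool.Agent.W_MP_6dfbfb_co.Exist

set_option autoImplicit false

namespace Pool.Agent.Results.MP_6dfbfb_co.MaximaAgree

open Pool.Agent.W_MP_6dfbfb_co

/-- For every number `m` of vertices and every real `α ≥ 1` (in particular for all `m ≥ 3` and
`α ≥ 2`), the maximum weight of a triangular choice multigraph equals the maximum weight of a
2-recursive one; both maxima are attained. -/
theorem result (m : ℕ) (α : ℝ) (hα : 1 ≤ α) :
    H m α = H₂ m α ∧ IsGreatest (weights m α) (H m α) ∧ IsGreatest (weights₂ m α) (H₂ m α) :=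
  main_eq m hα

end Pool.Agent.Results.MP_6dfbfb_co.MaximaAgree
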